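import Pool.Agent.H386.TM.Final

/-!
# Degree conditions which exclude switch pairs
-/

set_option autoImplicit false

open Finset Classical

namespace Pool.Agent.H386.TM

open Pool.Agent.H234RC (Hypo NonIso Reconstructible)
open Pool.Agent.Q266.WN (delV wk dg nbr both)

variable {V : Type} [Fintype V]

/-- the neighbours `x` of `v` with a nonneighbour `y` such that `deg x = deg y + 1` -/
noncomputable def ups (G : SimpleGraph V) (v : V) : Finset V :=
  univ.filter fun x => G.Adj v x ∧ ∃ y, y ≠ v ∧ ¬ G.Adj v y ∧ dg G x = dg G y + 1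

/-- the nonneighbours `y` of `v` with a neighbour `x` such that `deg x = deg y + 1` -/
noncomputable def downs (G : SimpleGraph V) (v : V) : Finset V :=
  univ.filter fun y => y ≠ v ∧ ¬ G.Adj v y ∧ ∃ x, G.Adj v x ∧ dg G x = dg G y + 1

section

variable {G : SimpleGraph V} {θ : ℚ} {v : V} {X Y : Finset V}

theorem Switch.sub_ups (h : Switch G θ v X Y) : X ⊆ ups G v := by
  intro x hx
  have h1 := h.deg (dg (delV G v) x)
  have h2 : x ∈ X.filter fun y => dg (delV G v) y = dg (delV G v) x := by simp [hx]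
  have h3 : 0 < (X.filter fun y => dg (delV G v) y = dg (delV G v) x).card :=
    Finset.card_pos.2 ⟨x, h2⟩
  rw [h1] at h3
  obtain ⟨y, hy⟩ := Finset.card_pos.1 h3
  rw [mem_filter] at hy
  have h4 := Pool.Agent.Q266.WN.dg_del G (h.adj x hx).ne'
  have h5 := Pool.Agent.Q266.WN.dg_del G (h.nadj y hy.1).1
  rw [if_pos (h.adj x hx)] at h4
  rw [if_neg (h.nadj y hy.1).2] at h5
  simp only [ups, mem_filter, mem_univ, true_and]
  exact ⟨h.adj x hx, y, (h.nadj y hy.1).1, (h.nadj y hy.1).2, by omega⟩

theorem Switch.sub_downs (h : Switch G θ v X Y) : Y ⊆ downs G v := by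
  intro y hy
  have h1 := h.deg (dg (delV G v) y)
  have h2 : y ∈ Y.filter fun x => dg (delV G v) x = dg (delV G v) y := by simp [hy]
  have h3 : 0 < (Y.filter fun x => dg (delV G v) x = dg (delV G v) y).card :=
    Finset.card_pos.2 ⟨y, h2⟩
  rw [← h1] at h3
  obtain ⟨x, hx⟩ := Finset.card_pos.1 h3
  rw [mem_filter] at hx
  have h4 := Pool.Agent.Q266.WN.dg_del G (h.adj x hx.1).ne'
  have h5 := Pool.Agent.Q266.WN.dg_del G (h.nadj y hy).1
  rw [if_pos (h.adj x hx.1)] at h4
  rw [if_neg (h.nadj y hy).2] at h5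
  simp only [downs, mem_filter, mem_univ, true_and]
  exact ⟨(h.nadj y hy).1, (h.nadj y hy).2, x, h.adj x hx.1, by omega⟩

theorem Switch.theta_lt (h : Switch G θ v X Y) : θ < X.card ∧ -(X.card : ℚ) ≤ θ := by
  have hX : 0 < X.card := by have := h.two; omega
  obtain ⟨x, hx⟩ := Finset.card_pos.1 hX
  have h1 := h.insX x hx
  have h2 : (X.filter fun u => G.Adj x u).card + 1 ≤ X.card := by
    have h3 : (X.filter fun u => G.Adj x u) ⊆ X.erase x := by
      intro u hu
      rw [mem_filter] at hu
      exact mem_erase.2 ⟨hu.2.ne', hu.1⟩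
    have h4 := card_le_card h3
    have h5 := card_erase_add_one hx
    omega
  have h4 : (Y.filter fun u => G.Adj x u).card ≤ X.card := by
    rw [h.card]
    exact card_filter_le _ _
  have q2 : ((X.filter fun u => G.Adj x u).card : ℚ) + 1 ≤ X.card := by exact_mod_cast h2
  have q4 : ((Y.filter fun u => G.Adj x u).card : ℚ) ≤ X.card := by exact_mod_cast h4
  have q6 : (0 : ℚ) ≤ (X.filter fun u => G.Adj x u).card := Nat.cast_nonneg _
  have q7 : (0 : ℚ) ≤ (Y.filter fun u => G.Adj x u).card := Nat.cast_nonneg _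
  constructor <;> linarith

end

section

variable (G : SimpleGraph V) (hn : 3 ≤ Fintype.card V) (a b : ℚ)
    (hab : ∀ x, ∑ u ∈ univ.filter (fun u => G.Adj x u), (dg G u : ℚ) = a * dg G x + b)

include hn hab

theorem ups_downs (v : V) (hv : ((min (ups G v).card (downs G v).card : ℕ) : ℚ) ≤ a - dg G v ∨
      ((min (ups G v).card (downs G v).card : ℕ) : ℚ) < dg G v - a) :
    Reconstructible G ∧ Reconstructible Gᶜ := by
  refine main G hn a b hab v fun X Y h => ?_
  obtain ⟨h1, h2⟩ := h.theta_lt
  have h3 : X.card ≤ min (ups G v).card (downs G v).card :=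
    le_min (card_le_card h.sub_ups) (h.card ▸ card_le_card h.sub_downs)
  have h4 : (X.card : ℚ) ≤ ((min (ups G v).card (downs G v).card : ℕ) : ℚ) := by
    exact_mod_cast h3
  rcases hv with hv | hv <;> linarith

end

/-- graphs with the degrees `k` and `k + 1` -/
theorem bidegreed (G : SimpleGraph V) (hn : 3 ≤ Fintype.card V) (k p q : ℕ)
    (hk : ∀ x, dg G x = k ∨ dg G x = k + 1)
    (hp : ∀ x, dg G x = k → ((univ.filter fun y => G.Adj x y ∧ dg G y = k + 1)).card = p)
    (hq : ∀ x, dg G x = k + 1 → ((univ.filter fun y => G.Adj x y ∧ dg G y = k + 1)).card = q)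
    (hpq : 2 * p ≤ q ∨ 2 * q ≤ p) : Reconstructible G ∧ Reconstructible Gᶜ := by
  have hab : ∀ x, ∑ u ∈ univ.filter (fun u => G.Adj x u), (dg G u : ℚ) =
      ((k : ℚ) + q - p) * dg G x + (p - k * q + k * p) := by
    intro x
    have h1 : ∀ u ∈ univ.filter (fun u => G.Adj x u), (dg G u : ℚ) =
        k + if dg G u = k + 1 then 1 else 0 := by
      intro u _
      rcases hk u with h | h
      · rw [h]
        simp
      · rw [h]
        simp
    have h2 : ((univ.filter fun y => G.Adj x y).card : ℚ) = dg G x := rfl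
    rw [sum_congr rfl h1, sum_add_distrib, sum_const, nsmul_eq_mul, h2, ← sum_filter, sum_const,
      nsmul_eq_mul, mul_one, filter_filter]
    rcases hk x with h | h
    · rw [hp x h, h]
      ring
    · rw [hq x h, h]
      push_cast
      ring
  have hV : 0 < Fintype.card V := by omega
  obtain ⟨v0⟩ : Nonempty V := Fintype.card_pos_iff.1 hV
  have hups : ∀ v x, x ∈ ups G v → G.Adj v x ∧ dg G x = k + 1 ∧ ∃ y, dg G y = k := by
    intro v x hx
    simp only [ups, mem_filter, mem_univ, true_and] at hx
    obtain ⟨h1, y, -, -, h2⟩ := hx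
    have h3 := hk x
    have h4 := hk y
    exact ⟨h1, by omega, y, by omega⟩
  have hle : ∀ v, (ups G v).card ≤
      (univ.filter fun y => G.Adj v y ∧ dg G y = k + 1).card := fun v =>
    card_le_card fun x hx => by
      simp only [mem_filter, mem_univ, true_and]
      exact ⟨(hups v x hx).1, (hups v x hx).2.1⟩
  have hzero : ∀ v, ups G v = ∅ → Reconstructible G ∧ Reconstructible Gᶜ := by
    intro v hv
    refine ups_downs G hn _ _ hab v ?_
    rw [hv, card_empty, Nat.zero_min, Nat.cast_zero]
    rcases le_or_gt (0 : ℚ) ((k : ℚ) + q - p - dg G v) with h | h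
    · exact Or.inl h
    · exact Or.inr (by linarith)
  by_cases h0 : ∃ v, dg G v = k
  · by_cases h1 : ∃ v, dg G v = k + 1
    · rcases hpq with hpq | hpq
      · obtain ⟨v, hv⟩ := h0
        refine ups_downs G hn _ _ hab v (Or.inl ?_)
        have h2 : min (ups G v).card (downs G v).card ≤ p :=
          (min_le_left _ _).trans ((hle v).trans (hp v hv).le)
        have h3 : ((min (ups G v).card (downs G v).card : ℕ) : ℚ) ≤ p := by exact_mod_cast h2
        have h4 : (2 : ℚ) * p ≤ q := by exact_mod_cast hpq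
        rw [hv]
        linarith
      · obtain ⟨v, hv⟩ := h1
        refine ups_downs G hn _ _ hab v (Or.inr ?_)
        have h2 : min (ups G v).card (downs G v).card ≤ q :=
          (min_le_left _ _).trans ((hle v).trans (hq v hv).le)
        have h3 : ((min (ups G v).card (downs G v).card : ℕ) : ℚ) ≤ q := by exact_mod_cast h2
        have h4 : (2 : ℚ) * q ≤ p := by exact_mod_cast hpq
        rw [hv, Nat.cast_add, Nat.cast_one]
        linarith
    · refine hzero v0 (eq_empty_of_forall_notMem fun x hx => h1 ⟨x, (hups v0 x hx).2.1⟩)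
  · refine hzero v0 (eq_empty_of_forall_notMem fun x hx => h0 (hups v0 x hx).2.2)

end Pool.Agent.H386.TM
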