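import Pool.Agent.H386.TM.Bidegreed

/-!
# Bipartite graphs with at most two main eigenvalues
-/

set_option autoImplicit false

open Finset Classical

namespace Pool.Agent.H386.TM

open Pool.Agent.H234RC (Hypo NonIso Reconstructible)
open Pool.Agent.Q266.WN (delV wk dg nbr both)

variable {V : Type} [Fintype V]

section

variable {G : SimpleGraph V} {θ : ℚ} {v : V} {X Y : Finset V}

theorem bool_eq {a b c : Bool} (h1 : a ≠ b) (h2 : b ≠ c) : a = c := by
  cases a <;> cases b <;> cases c <;> simp_all

theorem Switch.color (h : Switch G θ v X Y) (c : V → Bool)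
    (hc : ∀ x y, G.Adj x y → c x ≠ c y) (hθ : θ ≠ 0) : ∀ y ∈ Y, c y = c v := by
  set k := kap X Y with hk
  set kQ : V → ℝ := fun x => if c x = c v then 0 else k x with hkQ
  set kP : V → ℝ := fun x => if c x = c v then k x else 0 with hkP
  have hkv : k v = 0 := h.kap_v
  have h1 : bil G kQ kP = θ * ∑ x, kQ x * kQ x := by
    unfold bil
    rw [mul_sum]
    refine sum_congr rfl fun x _ => ?_
    by_cases hx : c x = c v
    · simp [hkQ, hx]
    · have h2 : ∑ y ∈ univ.filter (fun y => G.Adj x y), kP y =
          ∑ y ∈ univ.filter (fun y => G.Adj x y), k y := by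
        refine sum_congr rfl fun y hy => ?_
        have h3 : G.Adj x y := by simpa using hy
        have h4 : c y = c v := bool_eq (hc x y h3).symm hx
        simp [hkP, h4]
      have h5 : kQ x = k x := by simp [hkQ, hx]
      rw [h2, h.kap_sum (fun e => hx (by rw [e])), h5]
      ring
  have h2 : bil G kP kQ = θ * ∑ x, kP x * kP x := by
    unfold bil
    rw [mul_sum]
    refine sum_congr rfl fun x _ => ?_
    by_cases hx : c x = c v
    · have h2 : ∑ y ∈ univ.filter (fun y => G.Adj x y), kQ y =
          ∑ y ∈ univ.filter (fun y => G.Adj x y), k y := by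
        refine sum_congr rfl fun y hy => ?_
        have h3 : G.Adj x y := by simpa using hy
        have h4 : c y ≠ c v := fun e => hc x y h3 (hx.trans e.symm)
        simp [hkQ, h4]
      have h5 : kP x = k x := by simp [hkP, hx]
      rw [h2, h5]
      by_cases hxv : x = v
      · rw [hxv, hkv]
        ring
      · rw [h.kap_sum hxv]
        ring
    · simp [hkP, hx]
  rw [bil_comm, h2] at h1
  have hθ' : (θ : ℝ) ≠ 0 := by exact_mod_cast hθ
  have h3 := mul_left_cancel₀ hθ' h1
  have h4 : ∑ x, kQ x * kQ x + ∑ x, kP x * kP x = ∑ x, k x * k x := by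
    rw [← sum_add_distrib]
    refine sum_congr rfl fun x _ => ?_
    by_cases hx : c x = c v <;> simp [hkQ, hkP, hx]
  have h5 : ∑ x, k x * k x = X.card + X.card := by
    rw [hk]
    simp only [h.sq, sum_add_distrib, sum_ite_mem, univ_inter, sum_const, nsmul_eq_mul, mul_one]
    rw [h.card]
  have h6 : ∑ x, kP x * kP x = ((Y.filter fun y => c y = c v).card : ℝ) := by
    have h7 : ∀ x, kP x * kP x = if x ∈ Y.filter (fun y => c y = c v) then (1 : ℝ) else 0 := by
      intro x
      by_cases hx : c x = c v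
      · have h8 : x ∉ X := fun hX => hc v x (h.adj x hX) hx.symm
        have h9 := h.sq x
        rw [← hk, if_neg h8, zero_add] at h9
        have h10 : kP x = k x := by simp [hkP, hx]
        rw [h10, h9]
        simp [hx]
      · simp [hkP, hx]
    rw [sum_congr rfl fun x _ => h7 x, sum_ite_mem, univ_inter, sum_const, nsmul_eq_mul, mul_one]
  have h7 : ((Y.filter fun y => c y = c v).card : ℝ) = Y.card := by
    rw [← h6, ← h.card]
    linarith
  have h8 : (Y.filter fun y => c y = c v).card = Y.card := by exact_mod_cast h7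
  have h9 : Y.filter (fun y => c y = c v) = Y := eq_of_subset_of_card_le (filter_subset _ _) h8.ge
  intro y hy
  rw [← h9] at hy
  exact (mem_filter.1 hy).2

theorem Switch.bip (h : Switch G θ v X Y) (c : V → Bool)
    (hc : ∀ x y, G.Adj x y → c x ≠ c y) (hθ : θ ≠ 0) :
    θ < 0 ∧ (∀ x ∈ X, ∀ u, G.Adj x u → u = v ∨ u ∈ Y) ∧ (∀ y ∈ Y, ∀ u, G.Adj y u → u ∈ X) ∧
      (∀ x ∈ X, (dg G x : ℚ) = 1 - θ) ∧ (∀ y ∈ Y, (dg G y : ℚ) = -θ) := by
  have hY := h.color c hc hθ
  have hX : ∀ x ∈ X, c x ≠ c v := fun x hx e => hc v x (h.adj x hx) e.symm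
  have hXe : ∀ u, c u ≠ c v → X.filter (fun x => G.Adj u x) = ∅ := by
    intro u hu
    refine eq_empty_of_forall_notMem fun x hx => ?_
    rw [mem_filter] at hx
    exact hc u x hx.2 (bool_eq hu (hX x hx.1).symm)
  have hYe : ∀ u, c u = c v → Y.filter (fun x => G.Adj u x) = ∅ := by
    intro u hu
    refine eq_empty_of_forall_notMem fun y hy => ?_
    rw [mem_filter] at hy
    exact hc u y hy.2 (hu.trans (hY y hy.1).symm)
  have hcv : v ∉ X := fun e => hX v e rfl
  have hcY : v ∉ Y := fun e => (h.nadj v e).1 rfl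
  have hA : ∀ x ∈ X, ∀ u, G.Adj x u → u = v ∨ u ∈ Y := by
    intro x hx u hu
    by_contra hcon
    rw [not_or] at hcon
    have h1 : c u = c v := bool_eq (hc x u hu).symm (hX x hx)
    have h2 : u ∉ X := fun e => hX u e h1
    have h3 := h.out u hcon.1 h2 hcon.2
    rw [hYe u h1, card_empty, card_eq_zero] at h3
    have h4 : x ∈ X.filter (fun x => G.Adj u x) := mem_filter.2 ⟨hx, hu.symm⟩
    rw [h3] at h4
    exact notMem_empty _ h4
  have hB : ∀ y ∈ Y, ∀ u, G.Adj y u → u ∈ X := by
    intro y hy u hu
    by_contra hcon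
    have h1 : c u ≠ c v := fun e => hc y u hu ((hY y hy).trans e.symm)
    have h2 : u ∉ Y := fun e => h1 (hY u e)
    have h3 := h.out u (fun e => h1 (by rw [e])) hcon h2
    rw [hXe u h1, card_empty] at h3
    have h3' := card_eq_zero.1 h3.symm
    have h4 : y ∈ Y.filter (fun x => G.Adj u x) := mem_filter.2 ⟨hy, hu.symm⟩
    rw [h3'] at h4
    exact notMem_empty _ h4
  have hC : ∀ x ∈ X, (dg G x : ℚ) = 1 - θ := by
    intro x hx
    have h1 := h.insX x hx
    rw [hXe x (hX x hx), card_empty, Nat.cast_zero, zero_sub] at h1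
    have h2 : (univ.filter fun y => G.Adj x y) = insert v (Y.filter fun u => G.Adj x u) := by
      ext u
      simp only [mem_filter, mem_univ, true_and, mem_insert]
      constructor
      · intro hu
        rcases hA x hx u hu with h3 | h3
        · exact Or.inl h3
        · exact Or.inr ⟨h3, hu⟩
      · rintro (h3 | h3)
        · rw [h3]
          exact (h.adj x hx).symm
        · exact h3.2
    have h3 : dg G x = (Y.filter fun u => G.Adj x u).card + 1 := by
      unfold dg
      rw [h2, card_insert_of_notMem (fun e => hcY (mem_filter.1 e).1)]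
    rw [h3]
    push_cast
    linarith
  have hD : ∀ y ∈ Y, (dg G y : ℚ) = -θ := by
    intro y hy
    have h1 := h.insY y hy
    rw [hYe y (hY y hy), card_empty, Nat.cast_zero, zero_sub] at h1
    have h2 : (univ.filter fun u => G.Adj y u) = X.filter fun u => G.Adj y u := by
      ext u
      simp only [mem_filter, mem_univ, true_and]
      exact ⟨fun hu => ⟨hB y hy u hu, hu⟩, fun hu => hu.2⟩
    have h3 : dg G y = (X.filter fun u => G.Adj y u).card := by
      unfold dg
      rw [h2]
    rw [h3]
    linarith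
  refine ⟨?_, hA, hB, hC, hD⟩
  have h1 : 0 < Y.card := by have := h.two; have := h.card; omega
  obtain ⟨y, hy⟩ := Finset.card_pos.1 h1
  have h2 := hD y hy
  have h3 : (0 : ℚ) ≤ dg G y := Nat.cast_nonneg _
  exact lt_of_le_of_ne (by linarith) hθ

end

theorem bipartite (G : SimpleGraph V) (hn : 3 ≤ Fintype.card V) (a b : ℚ)
    (hab : ∀ x, ∑ u ∈ univ.filter (fun u => G.Adj x u), (dg G u : ℚ) = a * dg G x + b)
    (c : V → Bool) (hc : ∀ x y, G.Adj x y → c x ≠ c y) :
    Reconstructible G ∧ Reconstructible Gᶜ := by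
  refine both G fun H π h hN => ?_
  have hV : 0 < Fintype.card V := by omega
  obtain ⟨v0⟩ : Nonempty V := Fintype.card_pos_iff.1 hV
  have hex : ∀ v, ∃ X Y : Finset V, Switch G (a - dg G v) v X Y :=
    fun v => exists_switch h hn hN a b hab v
  have hge : ∀ v, a ≤ dg G v := by
    intro v
    by_contra hcon
    rw [not_le] at hcon
    obtain ⟨X, Y, hs⟩ := hex v
    have h1 := (hs.bip c hc (by intro e; linarith)).1
    linarith
  by_cases hreg : ∀ v, (dg G v : ℚ) = a
  · obtain ⟨X, Y, hs⟩ := hex v0
    have hX : 0 < X.card := by have := hs.two; omega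
    obtain ⟨x, hx⟩ := Finset.card_pos.1 hX
    have h1 := hs.sub_ups hx
    simp only [ups, mem_filter, mem_univ, true_and] at h1
    obtain ⟨-, y, -, -, h2⟩ := h1
    have h3 : (dg G x : ℚ) = dg G y := by rw [hreg, hreg]
    have h4 : dg G x = dg G y := by exact_mod_cast h3
    omega
  · rw [not_forall] at hreg
    obtain ⟨v, hv⟩ := hreg
    obtain ⟨X, Y, hs⟩ := hex v
    obtain ⟨-, hA, hB, hC, hD⟩ := hs.bip c hc (fun e => hv (by linarith))
    have hXp : 0 < X.card := by have := hs.two; omega
    have hYp : 0 < Y.card := by have := hs.card; omega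
    obtain ⟨x, hx⟩ := Finset.card_pos.1 hXp
    obtain ⟨y, hy⟩ := Finset.card_pos.1 hYp
    have dx := hC x hx
    have dy := hD y hy
    have gy := hge y
    -- the switch pair at `x`
    obtain ⟨X', Y', hs'⟩ := hex x
    obtain ⟨-, hA', hB', hC', hD'⟩ := hs'.bip c hc (by intro e; linarith)
    have hY'p : 0 < Y'.card := by have := hs'.card; have := hs'.two; omega
    obtain ⟨y', hy'⟩ := Finset.card_pos.1 hY'p
    have dy' := hD' y' hy'
    have gy' := hge y'
    have hw : ∃ w ∈ X', w ≠ v := by
      by_contra hcon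
      push Not at hcon
      have h1 : X' ⊆ {v} := fun w hw => mem_singleton.2 (hcon w hw)
      have h2 := card_le_card h1
      have h3 := hs'.two
      rw [card_singleton] at h2
      omega
    obtain ⟨w, hw, hwv⟩ := hw
    have hwY : w ∈ Y := by
      rcases hA x hx w (hs'.adj w hw) with h1 | h1
      · exact absurd h1 hwv
      · exact h1
    have dw := hC' w hw
    have dw2 := hD w hwY
    have ha : a = 2 := by linarith
    by_cases hya : (dg G y : ℚ) = a
    · linarith
    · obtain ⟨X2, Y2, hs2⟩ := hex y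
      obtain ⟨-, hA2, hB2, hC2, hD2⟩ := hs2.bip c hc (fun e => hya (by linarith))
      have hX2p : 0 < X2.card := by have := hs2.two; omega
      obtain ⟨x2, hx2⟩ := Finset.card_pos.1 hX2p
      have hx2X : x2 ∈ X := hB y hy x2 (hs2.adj x2 hx2)
      have hvY2 : v ∈ Y2 := by
        rcases hA2 x2 hx2 v (hs.adj x2 hx2X).symm with h1 | h1
        · exact absurd h1.symm (hs.nadj y hy).1
        · exact h1
      have dv := hD2 v hvY2
      linarith

/-- the neighbours of `v` have few neighbours in, or few neighbours outside `N(v)` -/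
theorem local_degrees (G : SimpleGraph V) (hn : 3 ≤ Fintype.card V) (a b : ℚ)
    (hab : ∀ x, ∑ u ∈ univ.filter (fun u => G.Adj x u), (dg G u : ℚ) = a * dg G x + b)
    (v : V) (hv : (∀ x, G.Adj v x →
        ((univ.filter fun u => G.Adj x u ∧ G.Adj v u).card : ℚ) < a - dg G v) ∨
      (∀ x, G.Adj v x →
        ((univ.filter fun u => G.Adj x u ∧ u ≠ v ∧ ¬ G.Adj v u).card : ℚ) < dg G v - a)) :
    Reconstructible G ∧ Reconstructible Gᶜ := by
  refine main G hn a b hab v fun X Y h => ?_
  have hX : 0 < X.card := by have := h.two; omega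
  obtain ⟨x, hx⟩ := Finset.card_pos.1 hX
  have h1 := h.insX x hx
  have h2 : (X.filter fun u => G.Adj x u).card ≤
      (univ.filter fun u => G.Adj x u ∧ G.Adj v u).card := card_le_card fun u hu => by
    rw [mem_filter] at hu
    simp only [mem_filter, mem_univ, true_and]
    exact ⟨hu.2, h.adj u hu.1⟩
  have h3 : (Y.filter fun u => G.Adj x u).card ≤
      (univ.filter fun u => G.Adj x u ∧ u ≠ v ∧ ¬ G.Adj v u).card := card_le_card fun u hu => by
    rw [mem_filter] at hu
    simp only [mem_filter, mem_univ, true_and]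
    exact ⟨hu.2, h.nadj u hu.1⟩
  have q2 : ((X.filter fun u => G.Adj x u).card : ℚ) ≤
      (univ.filter fun u => G.Adj x u ∧ G.Adj v u).card := by exact_mod_cast h2
  have q3 : ((Y.filter fun u => G.Adj x u).card : ℚ) ≤
      (univ.filter fun u => G.Adj x u ∧ u ≠ v ∧ ¬ G.Adj v u).card := by exact_mod_cast h3
  have q4 : (0 : ℚ) ≤ (X.filter fun u => G.Adj x u).card := Nat.cast_nonneg _
  have q5 : (0 : ℚ) ≤ (Y.filter fun u => G.Adj x u).card := Nat.cast_nonneg _
  rcases hv with hv | hv
  · have := hv x (h.adj x hx)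
    linarith
  · have := hv x (h.adj x hx)
    linarith

end Pool.Agent.H386.TM
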