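import Pool.Agent.H386.TM.Main

/-!
# Sums over switch pairs
-/

set_option autoImplicit false

open Finset Classical

namespace Pool.Agent.H386.TM

open Pool.Agent.H234RC (Hypo NonIso Reconstructible)
open Pool.Agent.Q266.WN (delV wk dg nbr both)

variable {V : Type} [Fintype V]

section

variable {G : SimpleGraph V} {θ : ℚ} {v : V} {X Y : Finset V}

theorem Switch.sum_zero (h : Switch G θ v X Y) : ∑ x, kap X Y x = 0 := by
  unfold kap
  simp only [sum_sub_distrib, sum_ite_mem, univ_inter, sum_const, nsmul_eq_mul, mul_one, h.card,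
    sub_self]

theorem Switch.sum_nbr (h : Switch G θ v X Y) :
    ∑ y ∈ univ.filter (fun y => G.Adj v y), kap X Y y = X.card := by
  have h1 : ∀ y ∈ univ.filter (fun y => G.Adj v y), kap X Y y = if y ∈ X then (1 : ℝ) else 0 := by
    intro y hy
    have hvy : G.Adj v y := by simpa using hy
    have h2 : y ∉ Y := fun hY => (h.nadj y hY).2 hvy
    simp [kap, h2]
  rw [sum_congr rfl h1, sum_ite_mem, sum_const, nsmul_eq_mul, mul_one]
  congr 2
  ext y
  simp only [mem_inter, mem_filter, mem_univ, true_and]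
  exact ⟨fun h => h.2, fun hy => ⟨h.adj y hy, hy⟩⟩

theorem Switch.card_pos (h : Switch G θ v X Y) : (0 : ℝ) < X.card := by
  have h1 : (2 : ℝ) ≤ X.card := by exact_mod_cast h.two
  linarith

theorem sum_swap (G : SimpleGraph V) (z w : V → ℝ) :
    ∑ x, z x * ∑ y ∈ univ.filter (fun y => G.Adj x y), w y =
      ∑ x, w x * ∑ y ∈ univ.filter (fun y => G.Adj x y), z y :=
  bil_comm G z w

theorem Switch.sum_deg (h : Switch G θ v X Y) : ∑ y, (dg G y : ℝ) * kap X Y y = X.card := by
  have h1 : ∀ y, (dg G y : ℝ) = ∑ _u ∈ univ.filter (fun u => G.Adj y u), (1 : ℝ) := by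
    intro y
    rw [sum_const, nsmul_eq_mul, mul_one]
    rfl
  have h2 : ∑ y, (dg G y : ℝ) * kap X Y y =
      ∑ y, (1 : ℝ) * ∑ u ∈ univ.filter (fun u => G.Adj y u), kap X Y u := by
    rw [sum_swap G (fun _ => 1) (kap X Y)]
    refine sum_congr rfl fun y _ => ?_
    rw [h1 y, mul_comm]
  rw [h2, ← sum_erase_add univ _ (mem_univ v), h.sum_nbr]
  have h3 : ∑ x ∈ univ.erase v, (1 : ℝ) * ∑ u ∈ univ.filter (fun u => G.Adj x u), kap X Y u =
      ∑ x ∈ univ.erase v, θ * kap X Y x := by
    refine sum_congr rfl fun x hx => ?_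
    rw [one_mul, h.kap_sum (ne_of_mem_erase hx)]
  have h4 : ∑ x ∈ univ.erase v, kap X Y x = 0 := by
    have h5 := sum_erase_add univ (kap X Y) (mem_univ v)
    rw [h.kap_v, h.sum_zero] at h5
    linarith
  rw [h3, ← mul_sum, h4]
  ring

end

end Pool.Agent.H386.TM
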