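import Pool.Graph.R_pool_sql_team_seeded_2aa45f1a.Q266.WN.Main1

/-!
# Graphs with at most two main eigenvalues: switch pairs
-/

set_option autoImplicit false

open Finset Classical Matrix

namespace Pool.Agent.H386.TM

open Pool.Agent.H234RC (Hypo NonIso Reconstructible)
open Pool.Agent.Q266.WN (delV wk dg nbr nbr_ne Same Hypo_lin Hypo_quad Hypo_deg iso_of_aut
  delV_v row_sum wk_eq both dg_del)

variable {V : Type} [Fintype V]

theorem symm_dot (A : Matrix V V ℚ) (hA : Aᵀ = A) (w1 w2 : V → ℚ) :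
    (A *ᵥ w1) ⬝ᵥ w2 = w1 ⬝ᵥ (A *ᵥ w2) := by
  rw [dotProduct_mulVec]
  congr 1
  rw [← vecMul_transpose, hA]

/-- the key computation -/
theorem eigen (A : Matrix V V ℚ) (hA : Aᵀ = A) (e δ u : V → ℚ) (v : V) (θ a b : ℚ)
    (hδ : δ v = 0) (hu : u v = 0) (hrow : ∀ f : V → ℚ, (A *ᵥ f) v = 0)
    (hg : ∀ x, x ≠ v → (A *ᵥ δ) x - θ * δ x =
      a * (A *ᵥ e) x + b * e x - (A *ᵥ (A *ᵥ e)) x)
    (hlin : ∀ k, u ⬝ᵥ ((A ^ k) *ᵥ e) = δ ⬝ᵥ ((A ^ k) *ᵥ e))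
    (hquad : ∀ k, u ⬝ᵥ ((A ^ k) *ᵥ u) = δ ⬝ᵥ ((A ^ k) *ᵥ δ)) (x : V) :
    (A *ᵥ u) x - θ * u x = (A *ᵥ δ) x - θ * δ x := by
  set F : V → ℚ := fun x => a * (A *ᵥ e) x + b * e x - (A *ᵥ (A *ᵥ e)) x with hF
  set T : (V → ℚ) → V → ℚ := fun w x => (A *ᵥ w) x - θ * w x with hT
  have l0 := hlin 0
  have l1 := hlin 1
  have l2 := hlin 2
  have l3 := hlin 3
  have q0 := hquad 0
  have q1 := hquad 1
  have q2 := hquad 2
  have p2 : ∀ w : V → ℚ, (A ^ 2) *ᵥ w = A *ᵥ (A *ᵥ w) := by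
    intro w
    rw [pow_two, ← mulVec_mulVec]
  have p3 : ∀ w : V → ℚ, (A ^ 3) *ᵥ w = A *ᵥ (A *ᵥ (A *ᵥ w)) := by
    intro w
    rw [pow_succ', ← mulVec_mulVec, p2]
  rw [pow_zero, one_mulVec] at l0
  rw [pow_one] at l1 q1
  rw [p2] at l2
  rw [p3] at l3
  rw [pow_zero, one_mulVec, one_mulVec] at q0
  rw [p2, p2] at q2
  have hTe : ∀ w : V → ℚ, T w = A *ᵥ w - θ • w := by
    intro w
    funext x
    simp [hT]
  have hFe : F = a • (A *ᵥ e) + b • e - A *ᵥ (A *ᵥ e) := by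
    funext x
    simp [hF]
  have hΦ : T u ⬝ᵥ F = T δ ⬝ᵥ F := by
    have key : ∀ w : V → ℚ, T w ⬝ᵥ F = a * (w ⬝ᵥ (A *ᵥ (A *ᵥ e))) + b * (w ⬝ᵥ (A *ᵥ e)) -
        w ⬝ᵥ (A *ᵥ (A *ᵥ (A *ᵥ e))) - θ * (a * (w ⬝ᵥ (A *ᵥ e)) + b * (w ⬝ᵥ e) -
          w ⬝ᵥ (A *ᵥ (A *ᵥ e))) := by
      intro w
      rw [hTe, hFe, sub_dotProduct, smul_dotProduct, symm_dot A hA]
      simp only [mulVec_sub, mulVec_add, mulVec_smul, dotProduct_sub, dotProduct_add,
        dotProduct_smul, smul_eq_mul]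
    rw [key, key, l0, l1, l2, l3]
  have hΨ : T u ⬝ᵥ T u = T δ ⬝ᵥ T δ := by
    have key : ∀ w : V → ℚ, T w ⬝ᵥ T w = w ⬝ᵥ (A *ᵥ (A *ᵥ w)) - 2 * θ * (w ⬝ᵥ (A *ᵥ w)) +
        θ ^ 2 * (w ⬝ᵥ w) := by
      intro w
      rw [hTe, sub_dotProduct, smul_dotProduct, symm_dot A hA]
      simp only [mulVec_sub, mulVec_smul, dotProduct_sub, dotProduct_smul, smul_eq_mul]
      ring
    rw [key, key, q0, q1, q2]
  have hv : ∀ w : V → ℚ, w v = 0 → T w v = 0 := by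
    intro w hw
    simp [hT, hrow, hw]
  have hFT : ∀ w : V → ℚ, w v = 0 → T w ⬝ᵥ F = T w ⬝ᵥ T δ := by
    intro w hw
    unfold dotProduct
    refine sum_congr rfl fun x _ => ?_
    by_cases hx : x = v
    · rw [hx, hv w hw, zero_mul, zero_mul]
    · congr 1
      exact (hg x hx).symm
  have hz : (T u - T δ) ⬝ᵥ (T u - T δ) = 0 := by
    have h1 : T u ⬝ᵥ T δ = T δ ⬝ᵥ T δ := by
      rw [← hFT u hu, ← hFT δ hδ, hΦ]
    simp only [sub_dotProduct, dotProduct_sub]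
    rw [dotProduct_comm (T δ) (T u), h1, hΨ]
    ring
  have h0 := dotProduct_self_eq_zero.1 hz
  have h1 := congrFun h0 x
  simp only [Pi.sub_apply, Pi.zero_apply] at h1
  exact sub_eq_zero.1 h1

/-- A switch pair. -/
structure Switch (G : SimpleGraph V) (θ : ℚ) (v : V) (X Y : Finset V) : Prop where
  adj : ∀ x ∈ X, G.Adj v x
  nadj : ∀ y ∈ Y, y ≠ v ∧ ¬ G.Adj v y
  two : 2 ≤ X.card
  card : X.card = Y.card
  deg : ∀ d, (X.filter fun x => dg (delV G v) x = d).card =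
    (Y.filter fun x => dg (delV G v) x = d).card
  out : ∀ u, u ≠ v → u ∉ X → u ∉ Y →
    (X.filter fun x => G.Adj u x).card = (Y.filter fun y => G.Adj u y).card
  insX : ∀ x ∈ X, ((X.filter fun u => G.Adj x u).card : ℚ) -
    (Y.filter fun u => G.Adj x u).card = θ
  insY : ∀ y ∈ Y, ((Y.filter fun u => G.Adj y u).card : ℚ) -
    (X.filter fun u => G.Adj y u).card = θ

/-- the numbers of `delV G v` -/
theorem two_main_identity (G : SimpleGraph V) (a b : ℚ)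
    (hab : ∀ x, ∑ u ∈ univ.filter (fun u => G.Adj x u), (dg G u : ℚ) = a * dg G x + b)
    (v x : V) (hx : x ≠ v) :
    ((delV G v).adjMatrix ℚ *ᵥ fun x => if G.Adj v x then (1 : ℚ) else 0) x -
      (a - dg G v) * (if G.Adj v x then (1 : ℚ) else 0) =
    a * ((delV G v).adjMatrix ℚ *ᵥ fun _ => (1 : ℚ)) x + b * 1 -
      ((delV G v).adjMatrix ℚ *ᵥ ((delV G v).adjMatrix ℚ *ᵥ fun _ => (1 : ℚ))) x := by
  have h1 : ∀ f : V → ℚ, ((delV G v).adjMatrix ℚ *ᵥ f) x =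
      ∑ y ∈ (univ.filter fun y => G.Adj x y).erase v, f y := by
    intro f
    rw [SimpleGraph.adjMatrix_mulVec_apply]
    refine sum_congr ?_ fun _ _ => rfl
    ext y
    simp only [SimpleGraph.mem_neighborFinset, delV, mem_erase, mem_filter, mem_univ, true_and]
    tauto
  have h2 : ∀ y, y ≠ v → ((delV G v).adjMatrix ℚ *ᵥ fun _ => (1 : ℚ)) y =
      dg G y - if G.Adj v y then 1 else 0 := by
    intro y hy
    have h3 := dg_del G hy
    have h4 : ((delV G v).adjMatrix ℚ *ᵥ fun _ => (1 : ℚ)) y = dg (delV G v) y := by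
      rw [SimpleGraph.adjMatrix_mulVec_apply, sum_const, nsmul_eq_mul, mul_one]
      congr 2
      ext z
      simp [SimpleGraph.mem_neighborFinset]
    rw [h4, h3]
    push_cast
    ring
  have h3 : ((delV G v).adjMatrix ℚ *ᵥ ((delV G v).adjMatrix ℚ *ᵥ fun _ => (1 : ℚ))) x =
      ∑ y ∈ (univ.filter fun y => G.Adj x y).erase v,
        ((dg G y : ℚ) - if G.Adj v y then 1 else 0) := by
    rw [h1]
    exact sum_congr rfl fun y hy => h2 y (ne_of_mem_erase hy)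
  have h4 : ∑ y ∈ (univ.filter fun y => G.Adj x y).erase v, (dg G y : ℚ) =
      a * dg G x + b - (if G.Adj v x then (dg G v : ℚ) else 0) := by
    by_cases hvx : G.Adj v x
    · rw [if_pos hvx, ← hab x, ← sum_erase_add _ _ (show v ∈ univ.filter fun y => G.Adj x y by
        simp [hvx.symm])]
      ring
    · rw [if_neg hvx, sub_zero, ← hab x, erase_eq_of_notMem]
      simp only [mem_filter, mem_univ, true_and]
      exact fun h => hvx h.symm
  rw [h3, sum_sub_distrib, h4, h1, h2 x hx]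
  split_ifs <;> ring

end Pool.Agent.H386.TM
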