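import Pool.Agent.H386.TM.Nonmain

/-!
# The theorems on graphs with at most two main eigenvalues
-/

set_option autoImplicit false

open Finset Classical

namespace Pool.Agent.H386.TM

open Pool.Agent.H234RC (Hypo NonIso Reconstructible)
open Pool.Agent.Q266.WN (delV wk dg nbr both)

variable {V : Type} [Fintype V]

theorem avg_max {G : SimpleGraph V} {v : V} (hv : ∀ x, dg G x ≤ dg G v)
    (hne : ∃ x y, dg G x ≠ dg G y) : ∑ x, (dg G x : ℝ) < Fintype.card V * dg G v := by
  obtain ⟨x, y, hxy⟩ := hne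
  have h1 : ∃ z, dg G z < dg G v := by
    by_contra hc
    push Not at hc
    have h2 := hc x
    have h3 := hc y
    have h4 := hv x
    have h5 := hv y
    omega
  obtain ⟨z, hz⟩ := h1
  have h2 : ∑ x, (dg G x : ℝ) < ∑ _x : V, (dg G v : ℝ) :=
    sum_lt_sum (fun x _ => by exact_mod_cast hv x) ⟨z, mem_univ _, by exact_mod_cast hz⟩
  rwa [sum_const, card_univ, nsmul_eq_mul] at h2

theorem avg_min {G : SimpleGraph V} {v : V} (hv : ∀ x, dg G v ≤ dg G x)
    (hne : ∃ x y, dg G x ≠ dg G y) : Fintype.card V * dg G v < ∑ x, (dg G x : ℝ) := by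
  obtain ⟨x, y, hxy⟩ := hne
  have h1 : ∃ z, dg G v < dg G z := by
    by_contra hc
    push Not at hc
    have h2 := hc x
    have h3 := hc y
    have h4 := hv x
    have h5 := hv y
    omega
  obtain ⟨z, hz⟩ := h1
  have h2 : ∑ _x : V, (dg G v : ℝ) < ∑ x, (dg G x : ℝ) :=
    sum_lt_sum (fun x _ => by exact_mod_cast hv x) ⟨z, mem_univ _, by exact_mod_cast hz⟩
  rwa [sum_const, card_univ, nsmul_eq_mul] at h2

section

variable (G : SimpleGraph V) (hn : 3 ≤ Fintype.card V) (a b : ℚ)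
    (hab : ∀ x, ∑ u ∈ univ.filter (fun u => G.Adj x u), (dg G u : ℚ) = a * dg G x + b)

include hn hab

theorem low (s : ℝ)
    (hs : ∀ z : V → ℝ, ∑ x, z x = 0 → ∑ x, (dg G x : ℝ) * z x = 0 →
      s * ∑ x, z x * z x ≤ bil G z z) (v : V)
    (hv : ∑ x, (dg G x : ℝ) < Fintype.card V * dg G v) (hvs : a - dg G v ≤ s) :
    Reconstructible G ∧ Reconstructible Gᶜ := by
  refine main G hn a b hab v fun X Y h => ?_
  have := h.least' a b hab rfl hv hs
  linarith

theorem high (t : ℝ)
    (ht : ∀ z : V → ℝ, ∑ x, z x = 0 → ∑ x, (dg G x : ℝ) * z x = 0 →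
      bil G z z ≤ t * ∑ x, z x * z x) (v : V)
    (hv : Fintype.card V * dg G v < ∑ x, (dg G x : ℝ)) (hvt : t ≤ a - dg G v) :
    Reconstructible G ∧ Reconstructible Gᶜ := by
  refine main G hn a b hab v fun X Y h => ?_
  have := h.largest' a b hab rfl hv ht
  linarith

theorem spread (hne : ∃ x y, dg G x ≠ dg G y) (s t : ℝ)
    (hs : ∀ z : V → ℝ, ∑ x, z x = 0 → ∑ x, (dg G x : ℝ) * z x = 0 →
      s * ∑ x, z x * z x ≤ bil G z z)
    (ht : ∀ z : V → ℝ, ∑ x, z x = 0 → ∑ x, (dg G x : ℝ) * z x = 0 →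
      bil G z z ≤ t * ∑ x, z x * z x) (x y : V) (hxy : t - s ≤ dg G x - dg G y) :
    Reconstructible G ∧ Reconstructible Gᶜ := by
  obtain ⟨m, -, hm⟩ := exists_max_image univ (dg G) ⟨x, mem_univ _⟩
  obtain ⟨l, -, hl⟩ := exists_min_image univ (dg G) ⟨x, mem_univ _⟩
  by_cases h1 : (a : ℝ) - dg G m ≤ s
  · exact low G hn a b hab s hs m (avg_max (fun x => hm x (mem_univ _)) hne) h1
  · rw [not_le] at h1
    refine high G hn a b hab t ht l (avg_min (fun x => hl x (mem_univ _)) hne) ?_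
    have h2 : (dg G x : ℝ) ≤ dg G m := by exact_mod_cast hm x (mem_univ _)
    have h3 : (dg G l : ℝ) ≤ dg G y := by exact_mod_cast hl y (mem_univ _)
    linarith

theorem connected (hG : G.Connected) (hne : ∃ x y, dg G x ≠ dg G y) (μ : ℝ)
    (hμ : μ ^ 2 = a * μ + b) (hμ' : μ ≤ a - μ)
    (h : (∀ z : V → ℝ, ∑ x, z x = 0 → ∑ x, (dg G x : ℝ) * z x = 0 →
        μ * ∑ x, z x * z x ≤ bil G z z) ∨
      (∀ z : V → ℝ, ∑ x, z x = 0 → ∑ x, (dg G x : ℝ) * z x = 0 →
        bil G z z ≤ μ * ∑ x, z x * z x)) :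
    Reconstructible G ∧ Reconstructible Gᶜ := by
  obtain ⟨⟨v, hv, hv'⟩, ⟨w, hw, hw'⟩⟩ := conn_bounds hG hne a b hab μ hμ hμ'
  rcases h with h | h
  · exact low G hn a b hab μ h v (avg_max hv hne) hv'.le
  · exact high G hn a b hab μ h w (avg_min hw hne) hw'.le

theorem degree (v : V) (hv : (2 : ℚ) * dg G v < a + 1 ∨ Fintype.card V - 1 + a < 2 * dg G v) :
    Reconstructible G ∧ Reconstructible Gᶜ := by
  refine main G hn a b hab v fun X Y h => ?_
  have hX : 0 < X.card := by have := h.two; omega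
  obtain ⟨x, hx⟩ := Finset.card_pos.1 hX
  have h1 := h.insX x hx
  -- the own set
  have h2 : (X.filter fun u => G.Adj x u).card + 1 ≤ X.card := by
    have h3 : (X.filter fun u => G.Adj x u) ⊆ X.erase x := by
      intro u hu
      rw [mem_filter] at hu
      exact mem_erase.2 ⟨hu.2.ne', hu.1⟩
    have h4 := card_le_card h3
    have h5 := card_erase_add_one hx
    omega
  have h3 : X.card ≤ dg G v := card_le_card fun u hu => by
    simpa using h.adj u hu
  have h4 : (Y.filter fun u => G.Adj x u).card ≤ Y.card := card_filter_le _ _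
  have h5 : Y.card + dg G v + 1 ≤ Fintype.card V := by
    have h6 : Disjoint Y (univ.filter fun y => G.Adj v y) := by
      rw [Finset.disjoint_left]
      intro y hy hy'
      exact (h.nadj y hy).2 (by simpa using hy')
    have h7 : v ∉ Y ∪ univ.filter fun y => G.Adj v y := by
      rw [mem_union, not_or]
      exact ⟨fun hy => (h.nadj v hy).1 rfl, by simp⟩
    have h8 := card_insert_of_notMem h7
    rw [card_union_of_disjoint h6] at h8
    have h9 : (insert v (Y ∪ univ.filter fun y => G.Adj v y)).card ≤ Fintype.card V :=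
      card_le_univ _
    rw [h8] at h9
    exact h9
  have q2 : ((X.filter fun u => G.Adj x u).card : ℚ) + 1 ≤ X.card := by exact_mod_cast h2
  have q3 : (X.card : ℚ) ≤ dg G v := by exact_mod_cast h3
  have q4 : ((Y.filter fun u => G.Adj x u).card : ℚ) ≤ Y.card := by exact_mod_cast h4
  have q5 : (Y.card : ℚ) + dg G v + 1 ≤ Fintype.card V := by exact_mod_cast h5
  have q6 : (0 : ℚ) ≤ (X.filter fun u => G.Adj x u).card := Nat.cast_nonneg _
  have q7 : (0 : ℚ) ≤ (Y.filter fun u => G.Adj x u).card := Nat.cast_nonneg _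
  rcases hv with hv | hv <;> linarith

end

end Pool.Agent.H386.TM
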