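import Pool.Agent.H386.TM.Spectral

/-!
# Reconstruction of graphs with at most two main eigenvalues
-/

set_option autoImplicit false

open Finset Classical

namespace Pool.Agent.H386.TM

open Pool.Agent.H234RC (Hypo NonIso Reconstructible)
open Pool.Agent.Q266.WN (delV wk dg nbr both)

variable {V : Type} [Fintype V]

theorem main (G : SimpleGraph V) (hn : 3 ≤ Fintype.card V) (a b : ℚ)
    (hab : ∀ x, ∑ u ∈ univ.filter (fun u => G.Adj x u), (dg G u : ℚ) = a * dg G x + b) (v : V)
    (hs : ∀ X Y : Finset V, ¬ Switch G (a - dg G v) v X Y) :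
    Reconstructible G ∧ Reconstructible Gᶜ := by
  refine both G fun H π h hN => ?_
  obtain ⟨X, Y, h1⟩ := exists_switch h hn hN a b hab v
  exact hs X Y h1

omit [Fintype V] in
/-- in a connected graph, a set of vertices different from the empty and the full set has an edge
which leaves it -/
theorem exists_boundary {G : SimpleGraph V} (hG : G.Connected) (S : Set V) {x y : V} (hx : x ∈ S)
    (hy : y ∉ S) : ∃ u w, G.Adj u w ∧ u ∈ S ∧ w ∉ S := by
  obtain ⟨p⟩ := hG.preconnected x y
  obtain ⟨d, -, h1, h2⟩ := p.exists_boundary_dart S hx hy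
  exact ⟨d.fst, d.snd, d.adj, h1, h2⟩

theorem conn_bounds {G : SimpleGraph V} (hG : G.Connected) (hne : ∃ x y, dg G x ≠ dg G y)
    (a b : ℚ)
    (hab : ∀ x, ∑ u ∈ univ.filter (fun u => G.Adj x u), (dg G u : ℚ) = a * dg G x + b)
    (μ : ℝ) (hμ : μ ^ 2 = a * μ + b) (hμ' : μ ≤ a - μ) :
    (∃ v, (∀ x, dg G x ≤ dg G v) ∧ (a : ℝ) - dg G v < μ) ∧
      ∃ v, (∀ x, dg G v ≤ dg G x) ∧ μ < a - dg G v := by
  obtain ⟨x0, y0, hxy⟩ := hne
  -- a vertex of largest degree with a neighbour of smaller degree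
  obtain ⟨m, -, hm⟩ := exists_max_image univ (dg G) ⟨x0, mem_univ _⟩
  obtain ⟨l, -, hl⟩ := exists_min_image univ (dg G) ⟨x0, mem_univ _⟩
  have hml : dg G l < dg G m := by
    have h1 := hm x0 (mem_univ _)
    have h2 := hm y0 (mem_univ _)
    have h3 := hl x0 (mem_univ _)
    have h4 := hl y0 (mem_univ _)
    omega
  obtain ⟨u, w, huw, hu, hw⟩ := exists_boundary hG {x | dg G x = dg G m}
    (show m ∈ {x | dg G x = dg G m} from rfl) (show l ∉ {x | dg G x = dg G m} from hml.ne)
  obtain ⟨u', w', huw', hu', hw'⟩ := exists_boundary hG {x | dg G x = dg G l}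
    (show l ∈ {x | dg G x = dg G l} from rfl) (show m ∉ {x | dg G x = dg G l} from hml.ne')
  have hw1 : dg G w < dg G m := lt_of_le_of_ne (hm w (mem_univ _)) hw
  have hw1' : dg G l < dg G w' := lt_of_le_of_ne (hl w' (mem_univ _)) (Ne.symm hw')
  have e1 : (a : ℚ) * dg G m + b < (dg G m : ℚ) ^ 2 := by
    have h1 := hab u
    rw [show dg G u = dg G m from hu] at h1
    rw [← h1]
    calc ∑ x ∈ univ.filter (fun x => G.Adj u x), (dg G x : ℚ) <
        ∑ x ∈ univ.filter (fun x => G.Adj u x), (dg G m : ℚ) := by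
          refine sum_lt_sum (fun x _ => by exact_mod_cast hm x (mem_univ _)) ⟨w, ?_, ?_⟩
          · simpa using huw
          · exact_mod_cast hw1
      _ = (dg G m : ℚ) ^ 2 := by
          rw [sum_const, nsmul_eq_mul]
          have h2 : (univ.filter fun x => G.Adj u x).card = dg G m := hu
          rw [h2]
          ring
  have e2 : (dg G l : ℚ) ^ 2 < (a : ℚ) * dg G l + b := by
    have h1 := hab u'
    rw [show dg G u' = dg G l from hu'] at h1
    rw [← h1]
    calc (dg G l : ℚ) ^ 2 = ∑ x ∈ univ.filter (fun x => G.Adj u' x), (dg G l : ℚ) := by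
          rw [sum_const, nsmul_eq_mul]
          have h2 : (univ.filter fun x => G.Adj u' x).card = dg G l := hu'
          rw [h2]
          ring
      _ < ∑ x ∈ univ.filter (fun x => G.Adj u' x), (dg G x : ℚ) := by
          refine sum_lt_sum (fun x _ => by exact_mod_cast hl x (mem_univ _)) ⟨w', ?_, ?_⟩
          · simpa using huw'
          · exact_mod_cast hw1'
  have f1 : (a : ℝ) * dg G m + b < (dg G m : ℝ) ^ 2 := by exact_mod_cast e1
  have f2 : (dg G l : ℝ) ^ 2 < (a : ℝ) * dg G l + b := by exact_mod_cast e2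
  have f3 : (dg G l : ℝ) < dg G m := by exact_mod_cast hml
  -- `(d - μ) (d - (a - μ)) = d ^ 2 - a d - b`
  have g1 : 0 < ((dg G m : ℝ) - μ) * (dg G m - (a - μ)) := by nlinarith
  have g2 : ((dg G l : ℝ) - μ) * (dg G l - (a - μ)) < 0 := by nlinarith
  have k1 : μ < dg G l := by
    by_contra hc
    rw [not_lt] at hc
    have : 0 ≤ ((dg G l : ℝ) - μ) * (dg G l - (a - μ)) :=
      mul_nonneg_of_nonpos_of_nonpos (by linarith) (by linarith)
    linarith
  have k2 : (dg G l : ℝ) < a - μ := by
    by_contra hc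
    rw [not_lt] at hc
    have : 0 ≤ ((dg G l : ℝ) - μ) * (dg G l - (a - μ)) :=
      mul_nonneg (by linarith) (by linarith)
    linarith
  have k3 : (a : ℝ) - μ < dg G m := by
    by_contra hc
    rw [not_lt] at hc
    have : ((dg G m : ℝ) - μ) * (dg G m - (a - μ)) ≤ 0 :=
      mul_nonpos_of_nonneg_of_nonpos (by linarith) (by linarith)
    linarith
  exact ⟨⟨m, fun x => hm x (mem_univ _), by linarith⟩,
    ⟨l, fun x => hl x (mem_univ _), by linarith⟩⟩

end Pool.Agent.H386.TM
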