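import Pool.Agent.H386.TM.Common

/-!
# Conditions on the nonmain eigenvalues which exclude switch pairs
-/

set_option autoImplicit false

open Finset Classical

namespace Pool.Agent.H386.TM

open Pool.Agent.H234RC (Hypo NonIso Reconstructible)
open Pool.Agent.Q266.WN (delV wk dg nbr both)

variable {V : Type} [Fintype V] {G : SimpleGraph V} {θ : ℚ} {v : V} {X Y : Finset V}

theorem bil_sub (G : SimpleGraph V) (z w : V → ℝ) (c : ℝ) :
    bil G (fun x => z x - c * w x) (fun x => z x - c * w x) =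
      bil G z z - 2 * c * bil G w z + c ^ 2 * bil G w w := by
  have h1 := bil_add G z w 1 (-c)
  have h2 : (fun x => 1 * z x + -c * w x) = fun x => z x - c * w x := by
    funext x
    ring
  rw [h2] at h1
  rw [h1]
  ring

theorem Switch.bil_kap' (h : Switch G θ v X Y) (w : V → ℝ) :
    bil G w (kap X Y) = θ * ∑ x, w x * kap X Y x + w v * X.card := by
  unfold bil
  rw [← sum_erase_add univ _ (mem_univ v), h.sum_nbr, ← sum_erase_add univ
    (fun x => w x * kap X Y x) (mem_univ v), h.kap_v, mul_zero, add_zero, mul_sum]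
  congr 1
  refine sum_congr rfl fun x hx => ?_
  rw [h.kap_sum (ne_of_mem_erase hx)]
  ring

/-- the main computation: `z = κ - (m / σ) (d - D)` is orthogonal to the all ones vector and to the
degree vector -/
theorem Switch.nonmain (h : Switch G θ v X Y) (a b : ℚ)
    (hab : ∀ x, ∑ u ∈ univ.filter (fun u => G.Adj x u), (dg G u : ℚ) = a * dg G x + b)
    (hθ : θ = a - dg G v) (hreg : ∃ x y, dg G x ≠ dg G y) :
    ∃ z : V → ℝ, ∑ x, z x = 0 ∧ ∑ x, (dg G x : ℝ) * z x = 0 ∧ ∃ c : ℝ, 0 < c ∧
      bil G z z - θ * ∑ x, z x * z x =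
        c * (∑ x, (dg G x : ℝ) - Fintype.card V * dg G v) := by
  set n : ℝ := (Fintype.card V : ℝ) with hn
  have hn0 : 0 < n := by
    rw [hn]
    have : 0 < Fintype.card V := Fintype.card_pos_iff.2 ⟨v⟩
    exact_mod_cast this
  set D : ℝ := (∑ x, (dg G x : ℝ)) / n with hD
  set u : V → ℝ := fun x => dg G x - D with hu
  set σ : ℝ := ∑ x, u x * u x with hσ
  set m : ℝ := (X.card : ℝ) with hm
  have hm0 : 0 < m := h.card_pos
  have hDn : ∑ x, (dg G x : ℝ) = n * D := by
    rw [hD]
    field_simp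
  have hsu : ∑ x, u x = 0 := by
    simp only [hu, sum_sub_distrib, sum_const, card_univ, nsmul_eq_mul]
    rw [hDn]
    ring
  have hσpos : 0 < σ := by
    obtain ⟨x, y, hxy⟩ := hreg
    have h1 : u x ≠ 0 ∨ u y ≠ 0 := by
      by_contra hc
      rw [not_or, not_not, not_not] at hc
      apply hxy
      have h2 : (dg G x : ℝ) = dg G y := by
        have := hc.1
        have := hc.2
        simp only [hu] at *
        linarith
      exact_mod_cast h2
    rcases h1 with h1 | h1
    · exact sum_pos' (fun x _ => mul_self_nonneg _) ⟨x, mem_univ _, mul_self_pos.2 h1⟩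
    · exact sum_pos' (fun x _ => mul_self_nonneg _) ⟨y, mem_univ _, mul_self_pos.2 h1⟩
  have hud : ∑ x, (dg G x : ℝ) * u x = σ := by
    have h1 : ∀ x, (dg G x : ℝ) * u x = u x * u x + D * u x := by
      intro x
      simp only [hu]
      ring
    simp only [h1, sum_add_distrib, ← mul_sum, hsu]
    rw [hσ]
    ring
  have huk : ∑ x, u x * kap X Y x = m := by
    have h1 : ∀ x, u x * kap X Y x = (dg G x : ℝ) * kap X Y x - D * kap X Y x := by
      intro x
      simp only [hu]
      ring
    simp only [h1, sum_sub_distrib, ← mul_sum, h.sum_zero, h.sum_deg]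
    rw [hm]
    ring
  have hAu : ∀ x, ∑ y ∈ univ.filter (fun y => G.Adj x y), u y = (a - D) * dg G x + b := by
    intro x
    have h1 := hab x
    have h2 : ∑ y ∈ univ.filter (fun y => G.Adj x y), (dg G y : ℝ) = a * dg G x + b := by
      exact_mod_cast h1
    simp only [hu, sum_sub_distrib, h2, sum_const, nsmul_eq_mul]
    have h3 : ((univ.filter fun y => G.Adj x y).card : ℝ) = dg G x := rfl
    rw [h3]
    ring
  have hbuu : bil G u u = (a - D) * σ := by
    unfold bil
    simp only [hAu]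
    have h1 : ∀ x, u x * ((a - D) * dg G x + b) = (a - D) * (dg G x * u x) + b * u x := by
      intro x
      ring
    simp only [h1, sum_add_distrib, ← mul_sum, hud, hsu]
    ring
  have hbuk : bil G u (kap X Y) = θ * m + u v * m := by
    rw [h.bil_kap' u, huk]
  have hbkk : bil G (kap X Y) (kap X Y) = θ * ∑ x, kap X Y x * kap X Y x :=
    h.bil_kap _ h.kap_v
  refine ⟨fun x => kap X Y x - (m / σ) * u x, ?_, ?_, m ^ 2 / (σ * n),
    div_pos (pow_pos hm0 2) (mul_pos hσpos hn0), ?_⟩
  · rw [sum_sub_distrib, ← mul_sum, hsu, h.sum_zero]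
    ring
  · have h1 : ∀ x, (dg G x : ℝ) * (kap X Y x - (m / σ) * u x) =
        (dg G x : ℝ) * kap X Y x - (m / σ) * (dg G x * u x) := by
      intro x
      ring
    rw [sum_congr rfl fun x _ => h1 x, sum_sub_distrib, ← mul_sum, hud, h.sum_deg, ← hm]
    field_simp
    ring
  · rw [bil_sub, hbkk, hbuk, hbuu]
    have h1 : ∑ x, (kap X Y x - (m / σ) * u x) * (kap X Y x - (m / σ) * u x) =
        ∑ x, kap X Y x * kap X Y x - 2 * (m / σ) * m + (m / σ) ^ 2 * σ := by
      have h2 : ∀ x, (kap X Y x - (m / σ) * u x) * (kap X Y x - (m / σ) * u x) =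
          kap X Y x * kap X Y x - 2 * (m / σ) * (u x * kap X Y x) + (m / σ) ^ 2 * (u x * u x) := by
        intro x
        ring
      rw [sum_congr rfl fun x _ => h2 x, sum_add_distrib, sum_sub_distrib, ← mul_sum, ← mul_sum,
        huk]
    rw [h1, hDn]
    have h3 : (θ : ℝ) = a - dg G v := by
      rw [hθ]
      push_cast
      ring
    rw [h3]
    have h4 : u v = dg G v - D := rfl
    rw [h4]
    field_simp
    ring

/-- a vertex of more than average degree, nonmain eigenvalues at least `a - deg v` -/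
theorem Switch.least' (h : Switch G θ v X Y) (a b : ℚ)
    (hab : ∀ x, ∑ u ∈ univ.filter (fun u => G.Adj x u), (dg G u : ℚ) = a * dg G x + b)
    (hθ : θ = a - dg G v) (hv : ∑ x, (dg G x : ℝ) < Fintype.card V * dg G v) {s : ℝ}
    (hs : ∀ z : V → ℝ, ∑ x, z x = 0 → ∑ x, (dg G x : ℝ) * z x = 0 →
      s * ∑ x, z x * z x ≤ bil G z z) : s < a - dg G v := by
  have hreg : ∃ x y, dg G x ≠ dg G y := by
    by_contra hc
    push Not at hc
    have h1 : ∑ x, (dg G x : ℝ) = Fintype.card V * dg G v := by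
      rw [sum_congr rfl fun x _ => by rw [hc x v], sum_const, card_univ, nsmul_eq_mul]
    linarith
  obtain ⟨z, h1, h2, c, hc, h3⟩ := h.nonmain a b hab hθ hreg
  have h4 := hs z h1 h2
  have h5 : bil G z z - θ * ∑ x, z x * z x < 0 := by
    rw [h3]
    exact mul_neg_of_pos_of_neg hc (by linarith)
  have h6 : 0 ≤ ∑ x, z x * z x := sum_nonneg fun x _ => mul_self_nonneg _
  have h7 : (θ : ℝ) = a - dg G v := by
    rw [hθ]
    push_cast
    ring
  rw [← h7]
  by_contra h8
  rw [not_lt] at h8
  have h9 := mul_le_mul_of_nonneg_right h8 h6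
  linarith

theorem Switch.largest' (h : Switch G θ v X Y) (a b : ℚ)
    (hab : ∀ x, ∑ u ∈ univ.filter (fun u => G.Adj x u), (dg G u : ℚ) = a * dg G x + b)
    (hθ : θ = a - dg G v) (hv : Fintype.card V * dg G v < ∑ x, (dg G x : ℝ)) {t : ℝ}
    (ht : ∀ z : V → ℝ, ∑ x, z x = 0 → ∑ x, (dg G x : ℝ) * z x = 0 →
      bil G z z ≤ t * ∑ x, z x * z x) : a - dg G v < t := by
  have hreg : ∃ x y, dg G x ≠ dg G y := by
    by_contra hc
    push Not at hc
    have h1 : ∑ x, (dg G x : ℝ) = Fintype.card V * dg G v := by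
      rw [sum_congr rfl fun x _ => by rw [hc x v], sum_const, card_univ, nsmul_eq_mul]
    linarith
  obtain ⟨z, h1, h2, c, hc, h3⟩ := h.nonmain a b hab hθ hreg
  have h4 := ht z h1 h2
  have h5 : 0 < bil G z z - θ * ∑ x, z x * z x := by
    rw [h3]
    exact mul_pos hc (by linarith)
  have h6 : 0 ≤ ∑ x, z x * z x := sum_nonneg fun x _ => mul_self_nonneg _
  have h7 : (θ : ℝ) = a - dg G v := by
    rw [hθ]
    push_cast
    ring
  rw [← h7]
  by_contra h8
  rw [not_lt] at h8
  have h9 := mul_le_mul_of_nonneg_right h8 h6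
  linarith

end Pool.Agent.H386.TM
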