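import Pool.Agent.H386.TM.Core

/-!
# Graphs with at most two main eigenvalues: every vertex has a switch pair
-/

set_option autoImplicit false

open Finset Classical Matrix

namespace Pool.Agent.H386.TM

open Pool.Agent.H234RC (Hypo NonIso Reconstructible)
open Pool.Agent.Q266.WN (delV wk dg nbr nbr_ne Same Hypo_lin Hypo_quad Hypo_deg iso_of_aut
  delV_v row_sum wk_eq both dg_del)

variable {V : Type} [Fintype V]

theorem quad_ind (M : Matrix V V ℚ) (D : Finset V) :
    (fun x => if x ∈ D then (1 : ℚ) else 0) ⬝ᵥ (M *ᵥ fun x => if x ∈ D then (1 : ℚ) else 0) =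
      ∑ x ∈ D, ∑ y ∈ D, M x y := by
  simp only [dotProduct, mulVec, ite_mul, one_mul, zero_mul, mul_ite, mul_one, mul_zero,
    sum_ite_mem, univ_inter]

theorem lin_ind (D : Finset V) (f : V → ℚ) :
    (fun x => if x ∈ D then (1 : ℚ) else 0) ⬝ᵥ f = ∑ x ∈ D, f x := by
  simp only [dotProduct, ite_mul, one_mul, zero_mul, sum_ite_mem, univ_inter]

theorem exists_switch {G H : SimpleGraph V} {π : V → Equiv.Perm V} (h : Hypo G H π)
    (hn : 3 ≤ Fintype.card V) (hN : NonIso G H) (a b : ℚ)
    (hab : ∀ x, ∑ u ∈ univ.filter (fun u => G.Adj x u), (dg G u : ℚ) = a * dg G x + b) (v : V) :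
    ∃ X Y : Finset V, Switch G (a - dg G v) v X Y := by
  set A := (delV G v).adjMatrix ℚ with hAdef
  have hA : Aᵀ = A := SimpleGraph.transpose_adjMatrix ..
  set B := nbr H π v with hB
  set C := univ.filter (fun x => G.Adj v x) with hC
  have hBv : v ∉ B := nbr_ne h v
  have hCv : v ∉ C := by simp [hC]
  set θ : ℚ := a - dg G v with hθ
  set z : V → ℚ := fun x => (if x ∈ B then 1 else 0) - (if x ∈ C then 1 else 0) with hz
  have hzv : z v = 0 := by simp [hz, hBv, hCv]
  have hzsum : ∀ f : V → ℚ, ∑ x, z x * f x = ∑ x ∈ B, f x - ∑ x ∈ C, f x := by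
    intro f
    simp only [hz, sub_mul, ite_mul, one_mul, zero_mul, sum_sub_distrib, sum_ite_mem, univ_inter]
  -- the case of equal neighbourhoods
  by_cases hBC : B = C
  · exfalso
    refine iso_of_aut h v 1 rfl (fun x y => Iff.rfl) (fun x => ?_) hN
    rw [← hB, hBC, hC]
    simp
  have hAz : ∀ x, (A *ᵥ z) x = θ * z x := by
    intro x
    have h1 := eigen A hA (fun _ => 1) (fun x => if x ∈ C then 1 else 0)
      (fun x => if x ∈ B then 1 else 0) v θ a b (by simp [hCv]) (by simp [hBv])
      (fun f => delV_v G v f) ?_ ?_ ?_ x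
    · have h2 : z = (fun x => if x ∈ B then (1 : ℚ) else 0) - fun x => if x ∈ C then (1 : ℚ) else 0 := by
        funext x
        simp [hz]
      rw [h2, mulVec_sub]
      simp only [Pi.sub_apply]
      linarith
    · intro y hy
      have h2 := two_main_identity G a b hab v y hy
      have h3 : (fun x => if x ∈ C then (1 : ℚ) else 0) = fun x => if G.Adj v x then (1 : ℚ) else 0 := by
        funext x
        simp [hC]
      have h4 : (if y ∈ C then (1 : ℚ) else 0) = if G.Adj v y then (1 : ℚ) else 0 :=
        congrFun h3 y
      rw [h4, h3]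
      exact h2
    · intro k
      have h1 := Hypo_lin h hn v k
      rw [lin_ind, lin_ind]
      simp only [hAdef, ← row_sum]
      exact_mod_cast h1
    · intro k
      have h1 := Hypo_quad h hn v k
      rw [quad_ind, quad_ind]
      simp only [hAdef, ← wk_eq]
      exact_mod_cast h1
  -- the two parts
  set X := C \ B with hX
  set Y := B \ C with hY
  have hAzv : ∀ x, x ≠ v → (A *ᵥ z) x = ((Y.filter fun y => G.Adj x y).card : ℚ) -
      (X.filter fun y => G.Adj x y).card := by
    intro x hx
    have h1 : (A *ᵥ z) x = ∑ y, z y * A x y := by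
      simp only [mulVec, dotProduct]
      exact sum_congr rfl fun y _ => mul_comm _ _
    have h2 : ∀ D : Finset V, v ∉ D → ∑ y ∈ D, A x y = ((D.filter fun y => G.Adj x y).card : ℚ) := by
      intro D hD
      rw [card_eq_sum_ones, sum_filter]
      push_cast
      refine sum_congr rfl fun y hy => ?_
      simp only [hAdef, SimpleGraph.adjMatrix_apply, delV]
      have h3 : y ≠ v := fun e => hD (e ▸ hy)
      simp only [hx, h3, ne_eq, not_false_eq_true, and_true]
    rw [h1, hzsum, h2 B hBv, h2 C hCv]
    have h3 : ∀ D E : Finset V, ((D.filter fun y => G.Adj x y).card : ℚ) =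
        ((D \ E).filter fun y => G.Adj x y).card + ((D ∩ E).filter fun y => G.Adj x y).card := by
      intro D E
      rw [← Nat.cast_add, ← card_union_of_disjoint, ← filter_union, sdiff_union_inter]
      exact disjoint_filter_filter (disjoint_sdiff_inter D E)
    rw [h3 B C, h3 C B, inter_comm C B]
    ring
  have hcardXY : X.card = Y.card := by
    have h1 := Hypo_lin h hn v 0
    have h2 : ∀ x : V, ∑ y, wk (delV G v) 0 x y = 1 := by
      intro x
      have h3 := row_sum (delV G v) 0 x
      rw [pow_zero, one_mulVec] at h3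
      exact_mod_cast h3
    simp only [h2, sum_const, smul_eq_mul, mul_one] at h1
    have h3 := card_sdiff_add_card_inter B C
    have h4 := card_sdiff_add_card_inter C B
    rw [inter_comm C B] at h4
    rw [← hB, ← hC] at h1
    rw [hX, hY]
    omega
  have hXmem : ∀ x, x ∈ X ↔ x ∈ C ∧ x ∉ B := fun x => mem_sdiff
  have hYmem : ∀ x, x ∈ Y ↔ x ∈ B ∧ x ∉ C := fun x => mem_sdiff
  have hXv : v ∉ X := fun h => hCv (mem_sdiff.1 h).1
  have hYv : v ∉ Y := fun h => hBv (mem_sdiff.1 h).1
  have hzX : ∀ x ∈ X, z x = -1 := by
    intro x hx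
    rw [hXmem] at hx
    simp [hz, hx.1, hx.2]
  have hzY : ∀ x ∈ Y, z x = 1 := by
    intro x hx
    rw [hYmem] at hx
    simp [hz, hx.1, hx.2]
  have hzn : ∀ x, x ∉ X → x ∉ Y → z x = 0 := by
    intro x hx hy
    rw [hXmem] at hx
    rw [hYmem] at hy
    by_cases h2 : x ∈ B <;> by_cases h3 : x ∈ C <;> simp [hz, h2, h3] at hx hy ⊢
  have hpos : 0 < X.card := by
    rcases Nat.eq_zero_or_pos X.card with h1 | h1
    · exfalso
      rw [h1] at hcardXY
      have h2 : X = ∅ := card_eq_zero.1 h1
      have h3 : Y = ∅ := card_eq_zero.1 hcardXY.symm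
      apply hBC
      exact Subset.antisymm (sdiff_eq_empty_iff_subset.1 h3) (sdiff_eq_empty_iff_subset.1 h2)
    · exact h1
  by_cases htwo : 2 ≤ X.card
  · refine ⟨X, Y, ⟨?_, ?_, htwo, hcardXY, ?_, ?_, ?_, ?_⟩⟩
    · intro x hx
      have := ((hXmem x).1 hx).1
      simpa [hC] using this
    · intro y hy
      refine ⟨fun e => hYv (e ▸ hy), ?_⟩
      have := ((hYmem y).1 hy).2
      simpa [hC] using this
    · intro d
      have h1 := Hypo_deg h hn v d
      rw [← hB, ← hC] at h1
      have h3 : ∀ D E : Finset V, (D.filter fun y => dg (delV G v) y = d).card =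
          ((D \ E).filter fun y => dg (delV G v) y = d).card +
            ((D ∩ E).filter fun y => dg (delV G v) y = d).card := by
        intro D E
        rw [← card_union_of_disjoint, ← filter_union, sdiff_union_inter]
        exact disjoint_filter_filter (disjoint_sdiff_inter D E)
      rw [h3 B C, h3 C B, inter_comm C B] at h1
      rw [hX, hY]
      omega
    · intro u hu h1 h2
      have h3 := hAzv u hu
      rw [hAz, hzn u h1 h2, mul_zero] at h3
      have h4 : ((X.filter fun y => G.Adj u y).card : ℚ) = (Y.filter fun y => G.Adj u y).card := by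
        linarith
      exact_mod_cast h4
    · intro x hx
      have h1 := hAzv x (fun e => hXv (e ▸ hx))
      rw [hAz, hzX x hx] at h1
      linarith
    · intro y hy
      have h1 := hAzv y (fun e => hYv (e ▸ hy))
      rw [hAz, hzY y hy] at h1
      linarith
  · exfalso
    have h1 : X.card = 1 := by omega
    have h2 : Y.card = 1 := by omega
    obtain ⟨p, hp⟩ := card_eq_one.1 h1
    obtain ⟨q, hq⟩ := card_eq_one.1 h2
    have hpX : p ∈ X := by rw [hp]; exact mem_singleton_self p
    have hqY : q ∈ Y := by rw [hq]; exact mem_singleton_self q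
    have hpv : p ≠ v := fun e => hXv (e ▸ hpX)
    have hqv : q ≠ v := fun e => hYv (e ▸ hqY)
    have hpq : p ≠ q := by
      rintro rfl
      exact ((hYmem p).1 hqY).2 ((hXmem p).1 hpX).1
    have hpB := (hXmem p).1 hpX
    have hqB := (hYmem q).1 hqY
    have hadj : ∀ x, x ≠ p → x ≠ q → ((delV G v).Adj x p ↔ (delV G v).Adj x q) := by
      intro x hxp hxq
      by_cases hx : x = v
      · subst hx
        simp [delV]
      · have h3 := hAzv x hx
        rw [hAz, hzn x (by rw [hp, mem_singleton]; exact hxp)
          (by rw [hq, mem_singleton]; exact hxq), mul_zero, hp, hq] at h3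
        simp only [filter_singleton] at h3
        simp only [delV, hx, hpv, hqv, ne_eq, not_false_eq_true, and_true]
        by_cases h4 : G.Adj x p <;> by_cases h5 : G.Adj x q <;> simp [h4, h5] at h3 ⊢
    refine iso_of_aut h v (Equiv.swap p q) (Equiv.swap_apply_of_ne_of_ne hpv.symm hqv.symm)
      ?_ ?_ hN
    · have hcomm := fun a b => (delV G v).adj_comm a b
      intro x y
      by_cases hxp : x = p
      · subst hxp
        rw [Equiv.swap_apply_left]
        by_cases hyp : y = x
        · subst hyp
          rw [Equiv.swap_apply_left]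
          simp
        · by_cases hyq : y = q
          · subst hyq
            rw [Equiv.swap_apply_right]
            exact hcomm _ _
          · rw [Equiv.swap_apply_of_ne_of_ne hyp hyq, hcomm q y, hcomm x y]
            exact (hadj y hyp hyq).symm
      · by_cases hxq : x = q
        · subst hxq
          rw [Equiv.swap_apply_right]
          by_cases hyp : y = p
          · subst hyp
            rw [Equiv.swap_apply_left]
            exact hcomm _ _
          · by_cases hyq : y = x
            · subst hyq
              rw [Equiv.swap_apply_right]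
              simp
            · rw [Equiv.swap_apply_of_ne_of_ne hyp hyq, hcomm p y, hcomm x y]
              exact hadj y hyp hyq
        · rw [Equiv.swap_apply_of_ne_of_ne hxp hxq]
          by_cases hyp : y = p
          · subst hyp
            rw [Equiv.swap_apply_left]
            exact (hadj x hxp hxq).symm
          · by_cases hyq : y = q
            · subst hyq
              rw [Equiv.swap_apply_right]
              exact hadj x hxp hxq
            · rw [Equiv.swap_apply_of_ne_of_ne hyp hyq]
    · intro x
      rw [← hB]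
      have hCx : ∀ a, G.Adj v a ↔ a ∈ C := by intro a; simp [hC]
      rw [hCx]
      by_cases hxp : x = p
      · subst hxp
        rw [Equiv.swap_apply_left]
        simp [hpB.2, hqB.2]
      · by_cases hxq : x = q
        · subst hxq
          rw [Equiv.swap_apply_right]
          simp [hpB.1, hqB.1]
        · rw [Equiv.swap_apply_of_ne_of_ne hxp hxq]
          have h3 : x ∉ X := by rw [hp, mem_singleton]; exact hxp
          have h4 : x ∉ Y := by rw [hq, mem_singleton]; exact hxq
          rw [hXmem] at h3
          rw [hYmem] at h4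
          tauto

end Pool.Agent.H386.TM
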