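import Pool.Agent.H386.TM.Pairs

/-!
# Spectral conditions which exclude switch pairs
-/

set_option autoImplicit false

open Finset Classical

namespace Pool.Agent.H386.TM

open Pool.Agent.H234RC (Hypo NonIso Reconstructible)
open Pool.Agent.Q266.WN (delV wk dg nbr both)

variable {V : Type} [Fintype V]

/-- the bilinear form of the adjacency matrix -/
noncomputable def bil (G : SimpleGraph V) (z w : V → ℝ) : ℝ :=
  ∑ x, z x * ∑ y ∈ univ.filter (fun y => G.Adj x y), w y

theorem bil_comm (G : SimpleGraph V) (z w : V → ℝ) : bil G z w = bil G w z := by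
  unfold bil
  have h1 : ∀ z w : V → ℝ, ∑ x, z x * ∑ y ∈ univ.filter (fun y => G.Adj x y), w y =
      ∑ x, ∑ y, if G.Adj x y then z x * w y else 0 := by
    intro z w
    refine sum_congr rfl fun x _ => ?_
    rw [mul_sum, sum_filter]
  rw [h1, h1, sum_comm]
  refine sum_congr rfl fun x _ => sum_congr rfl fun y _ => ?_
  simp only [G.adj_comm y x, mul_comm]

theorem bil_add (G : SimpleGraph V) (z w : V → ℝ) (α β : ℝ) :
    bil G (fun x => α * z x + β * w x) (fun x => α * z x + β * w x) =
      α ^ 2 * bil G z z + β ^ 2 * bil G w w + 2 * α * β * bil G w z := by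
  have h1 : bil G (fun x => α * z x + β * w x) (fun x => α * z x + β * w x) =
      α ^ 2 * bil G z z + β ^ 2 * bil G w w + α * β * bil G z w + α * β * bil G w z := by
    unfold bil
    simp only [mul_sum, ← sum_add_distrib]
    refine sum_congr rfl fun x _ => sum_congr rfl fun y _ => ?_
    ring
  rw [h1, bil_comm G z w]
  ring

/-- the vector of a switch pair -/
noncomputable def kap (X Y : Finset V) (x : V) : ℝ :=
  (if x ∈ X then 1 else 0) - (if x ∈ Y then 1 else 0)

variable {G : SimpleGraph V} {θ : ℚ} {v : V} {X Y : Finset V}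

theorem Switch.disj (h : Switch G θ v X Y) {x : V} (hx : x ∈ X) : x ∉ Y :=
  fun hy => (h.nadj x hy).2 (h.adj x hx)

theorem Switch.kap_v (h : Switch G θ v X Y) : kap X Y v = 0 := by
  have h1 : v ∉ X := fun hx => (h.adj v hx).ne rfl
  have h2 : v ∉ Y := fun hy => (h.nadj v hy).1 rfl
  simp [kap, h1, h2]

theorem Switch.kap_sum (h : Switch G θ v X Y) {u : V} (hu : u ≠ v) :
    ∑ y ∈ univ.filter (fun y => G.Adj u y), kap X Y y = θ * kap X Y u := by
  have h1 : ∀ D : Finset V, ∑ y ∈ univ.filter (fun y => G.Adj u y), (if y ∈ D then (1 : ℝ) else 0) =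
      ((D.filter fun y => G.Adj u y).card : ℝ) := by
    intro D
    rw [sum_ite_mem, card_eq_sum_ones, Nat.cast_sum]
    simp only [Nat.cast_one]
    refine sum_congr ?_ fun _ _ => rfl
    ext y
    simp only [mem_inter, mem_filter, mem_univ, true_and]
    exact and_comm
  unfold kap
  rw [sum_sub_distrib, h1, h1]
  by_cases hX : u ∈ X
  · have h2 := h.insX u hX
    rw [if_pos hX, if_neg (h.disj hX), sub_zero, mul_one, ← h2]
    push_cast
    ring
  · by_cases hY : u ∈ Y
    · have h2 := h.insY u hY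
      rw [if_neg hX, if_pos hY, ← h2]
      push_cast
      ring
    · rw [if_neg hX, if_neg hY, h.out u hu hX hY]
      ring

theorem Switch.bil_kap (h : Switch G θ v X Y) (w : V → ℝ) (hw : w v = 0) :
    bil G w (kap X Y) = θ * ∑ x, w x * kap X Y x := by
  unfold bil
  rw [mul_sum]
  refine sum_congr rfl fun x _ => ?_
  by_cases hx : x = v
  · rw [hx, hw]
    ring
  · rw [h.kap_sum hx]
    ring

theorem Switch.sq (h : Switch G θ v X Y) (x : V) :
    kap X Y x * kap X Y x = (if x ∈ X then 1 else 0) + (if x ∈ Y then 1 else 0) := by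
  unfold kap
  by_cases hX : x ∈ X
  · simp [hX, h.disj hX]
  · by_cases hY : x ∈ Y <;> simp [hX, hY]

theorem Switch.abs_mul (h : Switch G θ v X Y) (x : V) :
    |kap X Y x| * kap X Y x = kap X Y x := by
  unfold kap
  by_cases hX : x ∈ X
  · simp [hX, h.disj hX]
  · by_cases hY : x ∈ Y <;> simp [hX, hY]

theorem Switch.sum_sq (h : Switch G θ v X Y) :
    0 < ∑ x, kap X Y x * kap X Y x := by
  simp only [h.sq, sum_add_distrib, sum_ite_mem, univ_inter, sum_const, nsmul_eq_mul, mul_one]
  have h1 : (2 : ℝ) ≤ X.card := by exact_mod_cast h.two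
  have h2 : (0 : ℝ) ≤ Y.card := Nat.cast_nonneg _
  linarith

theorem Switch.sum_abs (h : Switch G θ v X Y) : ∑ x, |kap X Y x| * kap X Y x = 0 := by
  simp only [h.abs_mul]
  unfold kap
  simp only [sum_sub_distrib, sum_ite_mem, univ_inter, sum_const, nsmul_eq_mul, mul_one, h.card,
    sub_self]

theorem Switch.least (h : Switch G θ v X Y) {t : ℝ}
    (ht : ∀ z : V → ℝ, t * ∑ x, z x * z x ≤ bil G z z) : t ≤ θ := by
  have h1 := ht (kap X Y)
  rw [h.bil_kap _ h.kap_v] at h1
  exact le_of_mul_le_mul_right h1 h.sum_sq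

theorem Switch.second (h : Switch G θ v X Y) {t : ℝ} (p : V → ℝ)
    (ht : ∀ z : V → ℝ, ∑ x, p x * z x = 0 → bil G z z ≤ t * ∑ x, z x * z x) : (θ : ℝ) ≤ t := by
  set k := kap X Y with hk
  set c := ∑ x, k x * k x with hc
  have hcpos : 0 < c := h.sum_sq
  have habs : ∑ x, |k x| * |k x| = c := by
    simp only [abs_mul_abs_self, hc]
  have hcross : ∑ x, |k x| * k x = 0 := h.sum_abs
  have hb1 : bil G k k = θ * c := h.bil_kap _ h.kap_v
  have hb2 : bil G (fun x => |k x|) k = 0 := by
    have hkv : k v = 0 := h.kap_v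
    rw [h.bil_kap _ (by simp [hkv]), hcross, mul_zero]
  have hb3 : θ * c ≤ bil G (fun x => |k x|) fun x => |k x| := by
    rw [← hb1]
    unfold bil
    refine sum_le_sum fun x _ => ?_
    rw [mul_sum, mul_sum]
    refine sum_le_sum fun y _ => ?_
    calc k x * k y ≤ |k x * k y| := le_abs_self _
      _ = |k x| * |k y| := _root_.abs_mul _ _
  have hmain : ∀ α β : ℝ, α * (∑ x, p x * k x) + β * (∑ x, p x * |k x|) = 0 →
      θ * ((α ^ 2 + β ^ 2) * c) ≤ t * ((α ^ 2 + β ^ 2) * c) := by
    intro α β h0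
    have h1 := ht (fun x => α * k x + β * |k x|) (by
      rw [← h0, mul_sum, mul_sum, ← sum_add_distrib]
      exact sum_congr rfl fun x _ => by ring)
    rw [bil_add G k (fun x => |k x|) α β, hb1, hb2] at h1
    have h2 : ∑ x, (α * k x + β * |k x|) * (α * k x + β * |k x|) = (α ^ 2 + β ^ 2) * c := by
      have h3 : ∑ x, (α * k x + β * |k x|) * (α * k x + β * |k x|) =
          α ^ 2 * (∑ x, k x * k x) + β ^ 2 * (∑ x, |k x| * |k x|) +
            2 * α * β * ∑ x, |k x| * k x := by
        simp only [mul_sum, ← sum_add_distrib]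
        exact sum_congr rfl fun x _ => by ring
      rw [h3, habs, hcross, ← hc]
      ring
    rw [h2] at h1
    have h4 : β ^ 2 * (θ * c) ≤ β ^ 2 * bil G (fun x => |k x|) fun x => |k x| :=
      mul_le_mul_of_nonneg_left hb3 (sq_nonneg β)
    nlinarith
  by_cases h5 : (∑ x, p x * k x) = 0 ∧ (∑ x, p x * |k x|) = 0
  · have h6 := hmain 1 0 (by rw [h5.1, h5.2]; ring)
    have h7 : (θ : ℝ) * c ≤ t * c := by linarith
    exact le_of_mul_le_mul_right h7 hcpos
  · have h6 := hmain (∑ x, p x * |k x|) (-∑ x, p x * k x) (by ring)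
    have h7 : 0 < (∑ x, p x * |k x|) ^ 2 + (-∑ x, p x * k x) ^ 2 := by
      rw [not_and_or] at h5
      rcases h5 with h5 | h5
      · have := sq_pos_of_pos (abs_pos.2 h5)
        rw [sq_abs] at this
        nlinarith [sq_nonneg (∑ x, p x * |k x|)]
      · have := sq_pos_of_pos (abs_pos.2 h5)
        rw [sq_abs] at this
        nlinarith [sq_nonneg (∑ x, p x * k x)]
    exact le_of_mul_le_mul_right h6 (mul_pos h7 hcpos)

end Pool.Agent.H386.TM
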